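import Mathlib
import Pool.Agent.helper38.NO.U1

open Finset

namespace Pool.Agent.helper86.NO

open Pool.Agent.helper43.NO Pool.Agent.helper38.NO

private lemma one_m (s T : ℝ) (hs : 1 < s) (hT : 0 < T) (B : Finset ℕ) (m : ℕ) :
    ((B.filter (fun n => m < n ∧ T < (m.divisors.card : ℝ) + m - n)).card : ℝ) ≤
      T ^ (1 - s) * (m.divisors.card : ℝ) ^ s := by
  by_cases hTm : T < (m.divisors.card : ℝ)
  · have hτ : (0 : ℝ) < m.divisors.card := hT.trans hTm
    have h1 : (B.filter (fun n => m < n ∧ T < (m.divisors.card : ℝ) + m - n)) ⊆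
        Ioo m (m + m.divisors.card) := by
      intro n hn
      obtain ⟨-, h2, h3⟩ := mem_filter.mp hn
      refine mem_Ioo.mpr ⟨h2, ?_⟩
      have : (n : ℝ) < m + m.divisors.card := by linarith
      exact_mod_cast this
    have h2 : (B.filter (fun n => m < n ∧ T < (m.divisors.card : ℝ) + m - n)).card ≤
        m.divisors.card := by
      refine (card_le_card h1).trans ?_
      rw [Nat.card_Ioo]
      omega
    have h3 : ((B.filter (fun n => m < n ∧ T < (m.divisors.card : ℝ) + m - n)).card : ℝ) ≤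
        (m.divisors.card : ℝ) := by exact_mod_cast h2
    refine h3.trans ?_
    have h4 : T ^ (s - 1) ≤ (m.divisors.card : ℝ) ^ (s - 1) :=
      Real.rpow_le_rpow hT.le hTm.le (by linarith)
    have h5 : (0 : ℝ) < T ^ (1 - s) := Real.rpow_pos_of_pos hT _
    have h6 : T ^ (1 - s) * T ^ (s - 1) = 1 := by
      rw [← Real.rpow_add hT]; simp
    have h7 : (m.divisors.card : ℝ) ^ s =
        (m.divisors.card : ℝ) ^ (s - 1) * (m.divisors.card : ℝ) := by
      conv_rhs => rw [← Real.rpow_one (m.divisors.card : ℝ)]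
      rw [Real.rpow_one, ← Real.rpow_add_one hτ.ne']
      congr 1; ring
    calc (m.divisors.card : ℝ) = (T ^ (1 - s) * T ^ (s - 1)) * m.divisors.card := by
          rw [h6, one_mul]
      _ = T ^ (1 - s) * (T ^ (s - 1) * m.divisors.card) := by ring
      _ ≤ T ^ (1 - s) * ((m.divisors.card : ℝ) ^ (s - 1) * m.divisors.card) := by
          gcongr
      _ = T ^ (1 - s) * (m.divisors.card : ℝ) ^ s := by rw [h7]
  · have h1 : (B.filter (fun n => m < n ∧ T < (m.divisors.card : ℝ) + m - n)) = ∅ := by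
      refine filter_eq_empty_iff.mpr ?_
      rintro n - ⟨h2, h3⟩
      have : (m : ℝ) < n := by exact_mod_cast h2
      apply hTm
      linarith
    rw [h1, card_empty, Nat.cast_zero]
    positivity

/-- upper bound for the exceptional set (from `moment`). -/
theorem upper_exc (s ε : ℝ) (hs : 1 < s) (hε : 0 < ε) : ∃ δ : ℝ, 0 < δ ∧ ∃ X : ℕ, ∀ x : ℕ, X ≤ x →
    ∀ B : Finset ℕ, (∀ n ∈ B, 1 ≤ n ∧ n ≤ x ∧ ∃ m ∈ Ico 1 n,
      Real.log x ^ (((2 : ℝ) ^ s - 1) / (s - 1) + ε) < (m.divisors.card : ℝ) + m - n) →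
    (B.card : ℝ) ≤ x * Real.log x ^ (-δ) := by
  obtain ⟨C, hC, hmom⟩ := moment s hs.le
  have hs1 : 0 < s - 1 := by linarith
  set δ : ℝ := ε * (s - 1) / 2 with hδdef
  have hδ : 0 < δ := by positivity
  refine ⟨δ, hδ, ?_⟩
  have htend : Filter.Tendsto (fun x : ℕ => Real.log (x : ℝ) ^ δ) Filter.atTop Filter.atTop :=
    (tendsto_rpow_atTop hδ).comp (Real.tendsto_log_atTop.comp tendsto_natCast_atTop_atTop)
  obtain ⟨X, hX⟩ := Filter.eventually_atTop.mp (htend.eventually_ge_atTop C)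
  refine ⟨max X 3, ?_⟩
  intro x hx B hB
  have hxX : X ≤ x := (le_max_left _ _).trans hx
  have hx3 : 3 ≤ x := (le_max_right _ _).trans hx
  have hCx : C ≤ Real.log (x : ℝ) ^ δ := hX x hxX
  have hlog : 0 < Real.log (x : ℝ) := Real.log_pos (by exact_mod_cast (by omega : 1 < x))
  set κ : ℝ := ((2 : ℝ) ^ s - 1) / (s - 1) + ε with hκ
  set T : ℝ := Real.log (x : ℝ) ^ κ with hT
  have hTpos : 0 < T := Real.rpow_pos_of_pos hlog _
  have hsub : B ⊆ (Icc 1 x).biUnion
      (fun m => B.filter (fun n => m < n ∧ T < (m.divisors.card : ℝ) + m - n)) := by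
    intro n hn
    obtain ⟨h1, h2, m, hm, h3⟩ := hB n hn
    obtain ⟨hm1, hm2⟩ := mem_Ico.mp hm
    refine mem_biUnion.mpr ⟨m, mem_Icc.mpr ⟨hm1, by omega⟩, mem_filter.mpr ⟨hn, hm2, h3⟩⟩
  have hcard : (B.card : ℝ) ≤ ∑ m ∈ Icc 1 x,
      ((B.filter (fun n => m < n ∧ T < (m.divisors.card : ℝ) + m - n)).card : ℝ) := by
    have := (card_le_card hsub).trans card_biUnion_le
    exact_mod_cast this
  have hsum : ∑ m ∈ Icc 1 x,
      ((B.filter (fun n => m < n ∧ T < (m.divisors.card : ℝ) + m - n)).card : ℝ) ≤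
      T ^ (1 - s) * (C * x * Real.log x ^ ((2 : ℝ) ^ s - 1)) := by
    calc _ ≤ ∑ m ∈ Icc 1 x, T ^ (1 - s) * (m.divisors.card : ℝ) ^ s :=
          sum_le_sum (fun m _ => one_m s T hs hTpos B m)
      _ = T ^ (1 - s) * ∑ m ∈ Icc 1 x, (m.divisors.card : ℝ) ^ s := by rw [mul_sum]
      _ ≤ _ := mul_le_mul_of_nonneg_left (hmom x (by omega)) (Real.rpow_pos_of_pos hTpos _).le
  have hexp : T ^ (1 - s) * Real.log x ^ ((2 : ℝ) ^ s - 1) = Real.log x ^ (-δ) *
      Real.log x ^ (-δ) := by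
    rw [hT, ← Real.rpow_mul hlog.le, ← Real.rpow_add hlog, ← Real.rpow_add hlog]
    congr 1
    rw [hκ, hδdef]
    field_simp
    ring
  have hCd : C * Real.log x ^ (-δ) ≤ 1 := by
    rw [Real.rpow_neg hlog.le, ← div_eq_mul_inv, div_le_one (Real.rpow_pos_of_pos hlog _)]
    exact hCx
  calc (B.card : ℝ) ≤ T ^ (1 - s) * (C * x * Real.log x ^ ((2 : ℝ) ^ s - 1)) :=
        hcard.trans hsum
    _ = C * x * (T ^ (1 - s) * Real.log x ^ ((2 : ℝ) ^ s - 1)) := by ring
    _ = (C * Real.log x ^ (-δ)) * (x * Real.log x ^ (-δ)) := by rw [hexp]; ring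
    _ ≤ 1 * (x * Real.log x ^ (-δ)) := by
        refine mul_le_mul_of_nonneg_right hCd ?_
        have := Real.rpow_pos_of_pos hlog (-δ)
        positivity
    _ = x * Real.log x ^ (-δ) := one_mul _

end Pool.Agent.helper86.NO
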